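import Pool.Agent.W601.RP.Stm2

/-! Project RP, BB: elements vanishing on the coordinates below `t0`. -/

set_option autoImplicit false
open scoped Classical
open Filter Topology

namespace Pool.Agent.W924.RP

open Pool.Agent.W601.RP

noncomputable section

/-- the difference of `χ` and the pairing -/
def Z (hRed : S_RED) (χ : ↥H →+ TT) (k : ℕ →₀ ℤ) : ↥H →+ TT where
  toFun h := χ h - pr k (h : ℕ → TT)
  map_zero' := by
    have h1 := hRed.2.2.1 k 0 0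
    rw [add_zero] at h1
    have h2 : pr k (0 : ℕ → TT) = 0 := by
      have h3 : pr k (0 : ℕ → TT) + 0 = pr k 0 + pr k 0 := by rw [add_zero]; exact h1
      exact (add_left_cancel h3).symm
    show χ 0 - pr k (0 : ℕ → TT) = 0
    rw [map_zero, h2, sub_zero]
  map_add' g g' := by
    show χ (g + g') - pr k ((g : ℕ → TT) + (g' : ℕ → TT)) = _
    rw [map_add, hRed.2.2.1 k (g : ℕ → TT) (g' : ℕ → TT)]
    abel

theorem Z_apply (hRed : S_RED) (χ : ↥H →+ TT) (k : ℕ →₀ ℤ) (h : ↥H) :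
    Z hRed χ k h = χ h - pr k (h : ℕ → TT) := rfl

theorem D_fin (hN : S_NULL) {A : Set ℕ} (hA : FinCh A) {h : ℕ → TT} (hh : h ∈ H) {η : ℝ}
    (hη : 0 < η) : {t | t ∈ A ∧ η ≤ ‖h t‖}.Finite := by
  obtain ⟨F, hF, hAF⟩ := hA
  refine Set.Finite.subset (s := ⋃ B ∈ F, {t | t ∈ B ∧ η ≤ ‖h t‖}) ?_ ?_
  · exact Set.Finite.biUnion (Finset.finite_toSet F) fun B hB => hN.1 h hh B (hF B hB) η hη
  · rintro t ⟨ht, ht2⟩
    have h1 := hAF ht
    simp only [Set.mem_iUnion] at h1 ⊢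
    obtain ⟨B, hB, htB⟩ := h1
    exact ⟨B, hB, htB, ht2⟩

theorem approx (hN : S_NULL) (hC : S_CIR) (hRed : S_RED) {A : Set ℕ} (hA : FinCh A)
    (χ : ↥H →+ TT) (t0 : ℕ) (k0 : ℕ →₀ ℤ)
    (hu : ∀ t ∈ A, t0 ≤ t → ∀ a : ℕ, ∃ h ∈ H, h t = ((((a : ℝ) / (N t : ℝ)) : ℝ) : TT) ∧
      ∀ u ∈ A, u ≠ t → h u = 0)
    (hv : ∀ t ∈ A, t0 ≤ t → ∀ h : ↥H, (∀ u ∈ A, u ≠ t → (h : ℕ → TT) u = 0) →
      χ h = pr k0 (h : ℕ → TT))
    (h : ↥H) (hh : ∀ t ∈ A, t < t0 → (h : ℕ → TT) t = 0) {η : ℝ} (hη : 0 < η) :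
    ∃ h' : ↥H, Z hRed χ k0 h' = Z hRed χ k0 h ∧ ∀ t ∈ A, ‖(h' : ℕ → TT) t‖ < η := by
  have hD := D_fin hN hA h.2 hη
  obtain ⟨D, hDe⟩ : ∃ D : Finset ℕ, ∀ t, t ∈ D ↔ t ∈ A ∧ η ≤ ‖(h : ℕ → TT) t‖ :=
    ⟨hD.toFinset, fun t => by rw [Set.Finite.mem_toFinset]; rfl⟩
  have ht0 : ∀ t ∈ D, t0 ≤ t := by
    intro t ht
    by_contra hlt
    have h1 := (hDe t).1 ht
    rw [hh t h1.1 (by omega), norm_zero] at h1
    linarith [h1.2]
  have hex : ∀ t : ℕ, ∃ g : ↥H, t ∈ D → (g : ℕ → TT) t = (h : ℕ → TT) t ∧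
      (∀ u ∈ A, u ≠ t → (g : ℕ → TT) u = 0) := by
    intro t
    by_cases ht : t ∈ D
    · have hNt : 1 ≤ N t := by
        have h0 : 0 < N t := by unfold N; positivity
        omega
      obtain ⟨a, _, ha⟩ := hC.2.2.2.2 (N t) ((h : ℕ → TT) t) hNt (hN.2 _ h.2 t)
      obtain ⟨g, hg, hg1, hg2⟩ := hu t ((hDe t).1 ht).1 (ht0 t ht) a
      exact ⟨⟨g, hg⟩, fun _ => ⟨by rw [ha]; exact hg1, hg2⟩⟩
    · exact ⟨0, fun h => absurd h ht⟩
  choose g hg using hex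
  refine ⟨h - ∑ t ∈ D, g t, ?_, ?_⟩
  · rw [map_sub, map_sum, Finset.sum_eq_zero, sub_zero]
    intro t ht
    rw [Z_apply, hv t ((hDe t).1 ht).1 (ht0 t ht) (g t) (hg t ht).2, sub_self]
  · intro u hu'
    have e : ((h - ∑ t ∈ D, g t : ↥H) : ℕ → TT) u =
        (h : ℕ → TT) u - ∑ t ∈ D, (g t : ℕ → TT) u := by
      rw [AddSubgroup.coe_sub, Pi.sub_apply, AddSubgroup.val_finsetSum, Finset.sum_apply]
    rw [e]
    by_cases huD : u ∈ D
    · rw [Finset.sum_eq_single u, (hg u huD).1, sub_self, norm_zero]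
      · exact hη
      · intro t ht htu
        exact (hg t ht).2 u hu' (Ne.symm htu)
      · intro h1
        exact absurd huD h1
    · rw [Finset.sum_eq_zero, sub_zero]
      · by_contra h1
        push Not at h1
        exact huD ((hDe u).2 ⟨hu', h1⟩)
      · intro t ht
        refine (hg t ht).2 u hu' ?_
        rintro rfl
        exact huD ht

/-- BB -/
theorem bb : S_NULL → S_CIR → S_RED → S_BB := by
  intro hN hC hRed A hA χ ε hε hχ t0 k0 hk0 hu hv h hh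
  obtain ⟨C, hCe⟩ : ∃ C : ℝ, C = ∑ t ∈ k0.support, |(k0 t : ℝ)| := ⟨_, rfl⟩
  have hC0 : 0 ≤ C := by
    rw [hCe]
    exact Finset.sum_nonneg fun t _ => abs_nonneg _
  have key : ∀ (m : ℕ), 1 ≤ m → ∀ η : ℝ, 0 < η → m * η ≤ ε →
      ‖Z hRed χ k0 h‖ ≤ 1 / (4 * (m : ℝ)) + C * η := by
    intro m hm η hη hmη
    obtain ⟨h', hZ, hsm⟩ := approx hN hC hRed hA χ t0 k0 hu hv h hh hη
    rw [← hZ, Z_apply]
    have b1 : ‖χ h'‖ ≤ 1 / (4 * (m : ℝ)) := by
      refine hC.2.1 (χ h') m hm fun m' h1 h2 => ?_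
      rw [← map_nsmul]
      refine hχ _ fun t ht => ?_
      have e : ((m' • h' : ↥H) : ℕ → TT) t = m' • (h' : ℕ → TT) t := by
        rw [AddSubgroup.coe_nsmul, Pi.smul_apply]
      rw [e]
      have h3 : ‖m' • (h' : ℕ → TT) t‖ ≤ m' * ‖(h' : ℕ → TT) t‖ := norm_nsmul_le
      have h4 : (m' : ℝ) * ‖(h' : ℕ → TT) t‖ < m' * η :=
        mul_lt_mul_of_pos_left (hsm t ht) (by exact_mod_cast h1)
      have h5 : (m' : ℝ) * η ≤ m * η :=
        mul_le_mul_of_nonneg_right (by exact_mod_cast h2) hη.le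
      linarith
    have b2 : ‖pr k0 (h' : ℕ → TT)‖ ≤ C * η := by
      rw [hCe]
      exact hRed.2.2.2 k0 _ η fun t ht => (hsm t (hk0 t ht).1).le
    exact (norm_sub_le _ _).trans (add_le_add b1 b2)
  have hz : Z hRed χ k0 h = 0 := by
    by_contra hne
    have hpos : 0 < ‖Z hRed χ k0 h‖ := norm_pos_iff.2 hne
    obtain ⟨r, hr⟩ : ∃ r : ℝ, r = ‖Z hRed χ k0 h‖ := ⟨_, rfl⟩
    rw [← hr] at hpos key
    obtain ⟨m, hm⟩ := exists_nat_gt (1 / r)
    have hm0 : (0 : ℝ) < m := lt_trans (by positivity) hm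
    have hm1 : 1 ≤ m := by
      have : 0 < m := by exact_mod_cast hm0
      omega
    have hη : 0 < min (ε / m) (r / (2 * (C + 1))) := lt_min (by positivity) (by positivity)
    have h1 := key m hm1 (min (ε / m) (r / (2 * (C + 1)))) hη (by
      calc (m : ℝ) * min (ε / m) (r / (2 * (C + 1))) ≤ m * (ε / m) :=
            mul_le_mul_of_nonneg_left (min_le_left _ _) hm0.le
        _ = ε := by field_simp)
    have h2 : 1 / (4 * (m : ℝ)) < r / 4 := by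
      rw [div_lt_iff₀ hpos] at hm
      rw [div_lt_iff₀ (by positivity)]
      linarith
    have h3 : C * min (ε / m) (r / (2 * (C + 1))) ≤ r / 2 := by
      calc C * min (ε / m) (r / (2 * (C + 1))) ≤ C * (r / (2 * (C + 1))) :=
            mul_le_mul_of_nonneg_left (min_le_right _ _) hC0
        _ ≤ (C + 1) * (r / (2 * (C + 1))) :=
            mul_le_mul_of_nonneg_right (by linarith) (by positivity)
        _ = r / 2 := by field_simp
    linarith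
  rw [Z_apply] at hz
  exact sub_eq_zero.1 hz

end

end Pool.Agent.W924.RP
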